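import Pool.Agent.Results.MP_5317dd_nt.PowerSaving
import Pool.Agent.R482.ST.Ae

/-!
# Wiggin's maps: the orbits which start near powers, near iterates and near other sequences

Let `f_n`, `n = 0, 1, 2, …`, be positive functions on `(a, ∞)`, `a ≥ 0`, such that `f_n(t) / t` is nondecreasing, and let
`c = 1 / (30 D log D)`. For almost every `α > a`, for all but finitely many `n`, the orbits of ALL integers `m ≥ 1` with
`|m - f_n(α)| ≤ L_n` under Wiggin's map `F_D` come down to values `≤ y_n`, as soon as the sums of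
`L_n y_n ^ (-c) (1 + log (f_n(t) / f_n(s)))` converge. For `f_n(t) = t ^ (v_n)`, `v_n ≥ 1`, this is the case if
`∑ v_n L_n y_n ^ (-c) < ∞`: for almost every `α > 1` the orbits of all integers within distance `1` of `α ^ n` come down to
values `≤ (n + 1) ^ (3 / c)`, for all large `n`.
-/

set_option autoImplicit false

namespace Pool.Agent.Results.MP_5317dd_nt.DescentNearPowers

open MeasureTheory Filter

/-- Wiggin's map `F_D`. -/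
def F (D x : ℕ) : ℕ :=
  if x % D = 0 then x / D
  else if x % D = D - 1 then (D + 1) * x + 1
  else (D + 1) * x - x % D

/-- the functions `f n` are positive on `(a, ∞)`, `a ≥ 0`, and `f n x / x` is nondecreasing there -/
def Starshaped (a : ℝ) (f : ℕ → ℝ → ℝ) : Prop :=
  0 ≤ a ∧ ∀ n : ℕ, ∀ x y : ℝ, a < x → x ≤ y → 0 < f n x ∧ f n x / x ≤ f n y / y

lemma key (D : ℕ) (hD : 2 ≤ D) : ∃ C : ℝ, 0 < C ∧ ∀ y : ℕ → ℝ, (∀ n, 1 ≤ y n) → ∀ n, ∀ X : ℝ, 1 ≤ X →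
    {m | m ∈ {m : ℕ | 1 ≤ m ∧ ∀ k : ℕ, y n < (((F D)^[k] m : ℕ) : ℝ)} ∧ (m : ℝ) ≤ X}.Finite ∧
    ({m | m ∈ {m : ℕ | 1 ≤ m ∧ ∀ k : ℕ, y n < (((F D)^[k] m : ℕ) : ℝ)} ∧ (m : ℝ) ≤ X}.ncard : ℝ) ≤
      (C * (y n) ^ (-(1 / (30 * D * Real.log D)) : ℝ)) * X := by
  obtain ⟨⟨C, hC, h⟩, -⟩ := PowerSaving.result D hD
  refine ⟨C, hC, fun y hy n X hX => ?_⟩
  have hfin : {m : ℕ | 1 ≤ m ∧ (m : ℝ) ≤ X ∧ ∀ k : ℕ, y n < (((F D)^[k] m : ℕ) : ℝ)}.Finite := by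
    refine (Set.finite_Iic ⌊X⌋₊).subset ?_
    intro k hk
    exact Nat.le_floor hk.2.1
  have hsub : {m | m ∈ {m : ℕ | 1 ≤ m ∧ ∀ k : ℕ, y n < (((F D)^[k] m : ℕ) : ℝ)} ∧ (m : ℝ) ≤ X} ⊆
      {m : ℕ | 1 ≤ m ∧ (m : ℝ) ≤ X ∧ ∀ k : ℕ, y n < (((F D)^[k] m : ℕ) : ℝ)} := by
    rintro m ⟨⟨h1, h2⟩, h3⟩
    exact ⟨h1, h3, h2⟩
  refine ⟨hfin.subset hsub, ?_⟩
  have h1 := (h X (y n) hX (hy n)).1
  have hy0 : 0 < y n := by linarith [hy n]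
  calc _ ≤ ({m : ℕ | 1 ≤ m ∧ (m : ℝ) ≤ X ∧ ∀ k : ℕ, y n < (((F D)^[k] m : ℕ) : ℝ)}.ncard : ℝ) := by
        exact_mod_cast Set.ncard_le_ncard hsub hfin
    _ ≤ C * X / (y n) ^ (1 / (30 * D * Real.log D) : ℝ) := h1
    _ = _ := by
        rw [Real.rpow_neg hy0.le]
        field_simp

/-- **Theorem.** Let `D ≥ 2`, `y_n ≥ 1` and `L_n ≥ 0`.
(1) Let `f_n` be starshaped functions on `(a, ∞)`, bounded below by a positive constant at each point, such that for all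
`t > s > a` the sum of `L_n y_n ^ (-1 / (30 D log D)) (1 + log (f_n(t) / f_n(s)))` converges and `L_n ≤ f_n(s)` for all large
`n`. Then for almost every `α > a` and all but finitely many `n`, for EVERY integer `m ≥ 1` with `|m - f_n(α)| ≤ L_n` some
iterate of `m` under `F_D` is at most `y_n`.
(2) If `v_n ≥ 1`, the sum of `v_n L_n y_n ^ (-1 / (30 D log D))` converges and for each `s > 1` one has `L_n ≤ s ^ (v_n)` for
all large `n`, then the same is true for `f_n(α) = α ^ (v_n)` and almost every `α > 1`. -/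
theorem result (D : ℕ) (hD : 2 ≤ D) (y L : ℕ → ℝ) (hy : ∀ n, 1 ≤ y n) (hL : ∀ n, 0 ≤ L n) :
    (∀ (a : ℝ) (f : ℕ → ℝ → ℝ), Starshaped a f → (∀ s : ℝ, a < s → ∃ b : ℝ, 0 < b ∧ ∀ n, b ≤ f n s) →
      (∀ s : ℝ, a < s → ∀ᶠ n in atTop, L n ≤ f n s) →
      (∀ s t : ℝ, a < s → s ≤ t → Summable fun n =>
        L n * (y n) ^ (-(1 / (30 * D * Real.log D)) : ℝ) * (1 + Real.log (f n t / f n s))) →
      ∃ N : Set ℝ, volume N = 0 ∧ ∀ α : ℝ, a < α → α ∉ N → ∃ n₀ : ℕ, ∀ n : ℕ, n₀ ≤ n →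
        ∀ m : ℕ, 1 ≤ m → |(m : ℝ) - f n α| ≤ L n → ∃ k : ℕ, (((F D)^[k] m : ℕ) : ℝ) ≤ y n) ∧
    (∀ v : ℕ → ℝ, (∀ n, 1 ≤ v n) → (∀ s : ℝ, 1 < s → ∀ᶠ n in atTop, L n ≤ s ^ (v n)) →
      (Summable fun n => v n * L n * (y n) ^ (-(1 / (30 * D * Real.log D)) : ℝ)) →
      ∃ N : Set ℝ, volume N = 0 ∧ ∀ α : ℝ, 1 < α → α ∉ N → ∃ n₀ : ℕ, ∀ n : ℕ, n₀ ≤ n →
        ∀ m : ℕ, 1 ≤ m → |(m : ℝ) - α ^ (v n)| ≤ L n → ∃ k : ℕ, (((F D)^[k] m : ℕ) : ℝ) ≤ y n) := by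
  obtain ⟨C, hC, hcount⟩ := key D hD
  have hnn : ∀ n, 0 ≤ C * (y n) ^ (-(1 / (30 * D * Real.log D)) : ℝ) := fun n => by
    have := hy n
    positivity
  refine ⟨fun a f hf hb hLf hsum => ?_, fun v hv hLf hsum => ?_⟩
  · obtain ⟨N, hN, hN2⟩ := Pool.Agent.R482.ST.ae_windows
      (fun n => {m : ℕ | 1 ≤ m ∧ ∀ k : ℕ, y n < (((F D)^[k] m : ℕ) : ℝ)})
      (fun m : ℕ => (m : ℝ)) hf hb (C := fun n => C * (y n) ^ (-(1 / (30 * D * Real.log D)) : ℝ)) hnn hL hLf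
      (fun s t hs hst => by
        refine ((hsum s t hs hst).mul_left C).congr fun n => ?_
        ring) (hcount y hy)
    refine ⟨N, hN, fun α hα hαN => ?_⟩
    obtain ⟨n₀, hn⟩ := hN2 α hα hαN
    refine ⟨n₀, fun n hn1 m hm hw => ?_⟩
    by_contra hcon
    push Not at hcon
    exact absurd (hn n hn1 m ⟨hm, hcon⟩) (not_lt.2 hw)
  · obtain ⟨N, hN, hN2⟩ := Pool.Agent.R482.ST.pow_ae_windows
      (fun n => {m : ℕ | 1 ≤ m ∧ ∀ k : ℕ, y n < (((F D)^[k] m : ℕ) : ℝ)})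
      (fun m : ℕ => (m : ℝ)) hv (C := fun n => C * (y n) ^ (-(1 / (30 * D * Real.log D)) : ℝ)) hnn hL hLf (by
        refine (hsum.mul_left C).congr fun n => ?_
        ring) (hcount y hy)
    refine ⟨N, hN, fun α hα hαN => ?_⟩
    obtain ⟨n₀, hn⟩ := hN2 α hα hαN
    refine ⟨n₀, fun n hn1 m hm hw => ?_⟩
    by_contra hcon
    push Not at hcon
    exact absurd (hn n hn1 m ⟨hm, hcon⟩) (not_lt.2 hw)

end Pool.Agent.Results.MP_5317dd_nt.DescentNearPowers
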