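import Pool.Agent.R332.EX.Low
import Pool.Agent.Y927.GP.N

set_option autoImplicit false

/-!
# Wiggin's maps along exponential sequences

Let `D ≥ 2`, let `a` be coprime to `D`, `|a| ≥ 2`, let `f` be a nonconstant polynomial with integer
coefficients and `κ = 1 - (D - 1) / D * log (D + 1) / log D > 0`. For every `ε > 0` there are `δ, K > 0`
such that for ALL integers `b` coprime to `D`, ALL integers `c` and every interval of length `Y ≥ 1`, for
all but `K Y^(1 - δ)` of the `n` of the interval with `f n ≥ 0` and `x = b a^(f n) + c > 0` some iterate of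
`x` under Wiggin's map `F_D` is at most `Y^(-κ + ε) x`. In particular almost all `x` of these forms have
an iterate below themselves.
-/

namespace Pool.Agent.Results.MP_5317dd_nt.ExponentialDescent

open Polynomial Pool.Agent.Y927.GP

/-- Wiggin's map `F_D`. -/
def F (D x : ℕ) : ℕ :=
  if x % D = 0 then x / D
  else if x % D = D - 1 then (D + 1) * x + 1
  else (D + 1) * x - x % D

/-- The exponential sequence `n ↦ b a ^ (f n) + c`, for the integers `n` with `f n ≥ 0`. -/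
def expSeq (a b c : ℤ) (f : ℤ[X]) (n : ℤ) : ℤ := b * a ^ (f.eval n).toNat + c

/-- `κ_D = 1 - (D - 1) / D * log (D + 1) / log D` -/
noncomputable def kappa (D : ℕ) : ℝ :=
  1 - ((D : ℝ) - 1) / D * (Real.log ((D : ℝ) + 1) / Real.log D)

theorem kappa_eq (D : ℕ) : Mo.kap D (D + 1) = kappa D := by
  unfold Mo.kap kappa
  push_cast
  rfl

/-- **Main theorem.** Let `D ≥ 2`, let `a` be an integer coprime to `D` with `|a| ≥ 2` and let `f` be a
polynomial of degree at least `1` with integer coefficients. Then `κ_D > 0`, and: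
1. There are `δ, K > 0` such that for all integers `b` coprime to `D`, all integers `c` and every interval
`(X, X + Y]`, `Y > 1`, at most `K Y^(1 - δ)` of the integers `n` of the interval have `f n ≥ 0` and
`x = b a ^ (f n) + c > 0` such that all iterates of `x` under `F_D` are at least `x`.
2. For every `ε > 0` there are `δ, K > 0` such that for all integers `b` coprime to `D`, all integers `c`
and every interval `(X, X + Y]`, `Y ≥ 1`, at most `K Y^(1 - δ)` of the integers `n` of the interval have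
`f n ≥ 0` and `x = b a ^ (f n) + c > 0` such that all iterates of `x` under `F_D` are larger than
`Y^(-κ_D + ε) x`. -/
theorem result (D : ℕ) (hD : 2 ≤ D) (a : ℤ) (ha : 2 ≤ |a|) (hac : IsCoprime a (D : ℤ)) (f : ℤ[X])
    (hf : 1 ≤ f.natDegree) :
    0 < kappa D ∧
    (∃ δ K : ℝ, 0 < δ ∧ 0 < K ∧ ∀ b c : ℤ, IsCoprime b (D : ℤ) → ∀ (X : ℤ) (Y : ℝ), 1 < Y →
      ({n : ℤ | X < n ∧ (n : ℝ) ≤ X + Y ∧ 0 ≤ f.eval n ∧ 0 < expSeq a b c f n ∧ ∀ k : ℕ,
        (expSeq a b c f n).toNat ≤ (F D)^[k] (expSeq a b c f n).toNat}.ncard : ℝ) ≤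
          K * Y ^ (1 - δ)) ∧
    (∀ ε : ℝ, 0 < ε → ∃ δ K : ℝ, 0 < δ ∧ 0 < K ∧ ∀ b c : ℤ, IsCoprime b (D : ℤ) →
      ∀ (X : ℤ) (Y : ℝ), 1 ≤ Y →
      ({n : ℤ | X < n ∧ (n : ℝ) ≤ X + Y ∧ 0 ≤ f.eval n ∧ 0 < expSeq a b c f n ∧ ∀ k : ℕ,
        Y ^ (-kappa D + ε) * ((expSeq a b c f n : ℤ) : ℝ) <
          (((F D)^[k] (expSeq a b c f n).toNat : ℕ) : ℝ)}.ncard : ℝ) ≤ K * Y ^ (1 - δ)) := by
  classical
  have hκ : 0 < kappa D := by
    rw [← kappa_eq]
    exact Pool.Agent.R332.EX.kap_pos hD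
  have main : ∀ ε : ℝ, 0 < ε → ∃ δ K : ℝ, 0 < δ ∧ 0 < K ∧ ∀ b c : ℤ, IsCoprime b (D : ℤ) →
      ∀ (X : ℤ) (Y : ℝ), 1 ≤ Y → ∀ A : Finset ℤ, A ⊆ Finset.Ioc X (X + ⌊Y⌋₊) →
      (∀ n ∈ A, 0 ≤ f.eval n ∧ 0 < expSeq a b c f n ∧ ∀ k : ℕ,
        Y ^ (-kappa D + ε) * ((expSeq a b c f n : ℤ) : ℝ) <
          (((F D)^[k] (expSeq a b c f n).toNat : ℕ) : ℝ)) → (A.card : ℝ) ≤ K * Y ^ (1 - δ) := by
    intro ε hε
    obtain ⟨δ, K, hδ, -, hK, h⟩ := Pool.Agent.R332.EX.wiggin hD hf ha hac hε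
    rw [kappa_eq] at h
    exact ⟨δ, K, hδ, hK, h⟩
  refine ⟨hκ, ?_, fun ε hε => ?_⟩
  · obtain ⟨δ, K, hδ, hK, h⟩ := main (kappa D / 2) (by positivity)
    refine ⟨δ, K, hδ, hK, fun b c hb X Y hY => ?_⟩
    apply ncard_int (P := fun n : ℤ => 0 ≤ f.eval n ∧ 0 < expSeq a b c f n ∧ ∀ k : ℕ,
        (expSeq a b c f n).toNat ≤ (F D)^[k] (expSeq a b c f n).toNat)
    intro A hA hE
    apply h b c hb X Y hY.le A hA
    intro n hn
    obtain ⟨h1, h2, h3⟩ := hE n hn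
    refine ⟨h1, h2, fun k => ?_⟩
    have hx : (0 : ℝ) < ((expSeq a b c f n : ℤ) : ℝ) := by exact_mod_cast h2
    have h4 : Y ^ (-kappa D + kappa D / 2) < 1 :=
      Real.rpow_lt_one_of_one_lt_of_neg hY (by linarith)
    have h5 : ((expSeq a b c f n : ℤ) : ℝ) = (((expSeq a b c f n).toNat : ℕ) : ℝ) := by
      have := Int.toNat_of_nonneg h2.le
      exact_mod_cast this.symm
    have h6 : (((expSeq a b c f n).toNat : ℕ) : ℝ) ≤
        (((F D)^[k] (expSeq a b c f n).toNat : ℕ) : ℝ) := by exact_mod_cast h3 k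
    nlinarith
  · obtain ⟨δ, K, hδ, hK, h⟩ := main ε hε
    refine ⟨δ, K, hδ, hK, fun b c hb X Y hY => ?_⟩
    apply ncard_int (P := fun n : ℤ => 0 ≤ f.eval n ∧ 0 < expSeq a b c f n ∧ ∀ k : ℕ,
        Y ^ (-kappa D + ε) * ((expSeq a b c f n : ℤ) : ℝ) <
          (((F D)^[k] (expSeq a b c f n).toNat : ℕ) : ℝ))
    intro A hA hE
    exact h b c hb X Y hY A hA hE

end Pool.Agent.Results.MP_5317dd_nt.ExponentialDescent
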