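import Pool.Agent.R623.LN.W
import Pool.Agent.H319R3.PO.P17

/-!
Wiggin's maps `F_D`: the sum of the reciprocals of the integers which descend below `D` after exactly `k`
steps converges for `k → ∞`.
-/

set_option autoImplicit false

namespace Pool.Agent.Results.MP_5317dd_nt.ReciprocalMassOfLevels

open Finset Filter Topology

/-- Wiggin's map `F_D`. -/
def F (D x : ℕ) : ℕ :=
  if x % D = 0 then x / D
  else if x % D = D - 1 then (D + 1) * x + 1
  else (D + 1) * x - x % D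

/-- `n` descends below `D` under iteration of `F_D`. -/
def Desc (D n : ℕ) : Prop := ∃ k : ℕ, (F D)^[k] n < D

/-- The integers `n ≥ 1` which descend below `D` at the step number `k` and not before. -/
def Level (D k : ℕ) : Set ℕ := {n : ℕ | 1 ≤ n ∧ (F D)^[k] n < D ∧ ∀ j < k, D ≤ (F D)^[j] n}

theorem F_eq : F = R623.LN.W.F := rfl

open R623.LN.W (mD rD eD Fs Fb)

theorem sum_log (D : ℕ) (hD : 2 ≤ D) : ∑ i ∈ range D, Real.log (|(mD D i : ℝ)| / D) =
    -(D * Real.log D - (D - 1) * Real.log (D + 1)) := by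
  obtain ⟨e, rfl⟩ : ∃ e, D = e + 1 := ⟨D - 1, by omega⟩
  have hD0 : (0 : ℝ) < ((e + 1 : ℕ) : ℝ) := by positivity
  have h1 : ∀ i ∈ range e, Real.log (|(mD (e + 1) (i + 1) : ℝ)| / ((e + 1 : ℕ) : ℝ)) =
      Real.log (((e + 1 : ℕ) : ℝ) + 1) - Real.log ((e + 1 : ℕ) : ℝ) := by
    intro i _
    have h2 : (mD (e + 1) (i + 1) : ℝ) = ((e + 1 : ℕ) : ℝ) + 1 := by
      unfold mD
      rw [if_neg (by omega)]
      push_cast
      ring
    rw [h2, abs_of_pos (by positivity), Real.log_div (by positivity) hD0.ne']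
  have h3 : Real.log (|(mD (e + 1) 0 : ℝ)| / ((e + 1 : ℕ) : ℝ)) = -Real.log ((e + 1 : ℕ) : ℝ) := by
    have h2 : (mD (e + 1) 0 : ℝ) = 1 := by
      unfold mD
      rw [if_pos rfl]
      norm_num
    rw [h2, abs_one, one_div, Real.log_inv]
  rw [Finset.sum_range_succ', Finset.sum_congr rfl h1, h3, Finset.sum_const, Finset.card_range,
    nsmul_eq_mul]
  push_cast
  ring

theorem sum_e (D : ℕ) (hD : 2 ≤ D) : ∑ i ∈ range D, (1 - (eD i : ℝ)) = D - 1 := by
  obtain ⟨e, rfl⟩ : ∃ e, D = e + 1 := ⟨D - 1, by omega⟩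
  have h1 : ∀ i ∈ range e, (1 - (eD (i + 1) : ℝ)) = 1 := by
    intro i _
    unfold eD
    rw [if_neg (by omega)]
    norm_num
  rw [Finset.sum_range_succ', Finset.sum_congr rfl h1, Finset.sum_const, Finset.card_range, nsmul_eq_mul]
  unfold eD
  push_cast
  simp

theorem mem_Bas (D : ℕ) (hD : 2 ≤ D) (n : ℕ) (hn : 1 ≤ n) :
    (n : ℤ) ∈ R623.LM.Bas D (mD D) (rD D) (Fs D) ↔ Desc D n := by
  constructor
  · rintro ⟨k, hk⟩
    obtain ⟨j, -, hj⟩ := (R623.LN.W.mem_UC D hD _ n hn).1 ⟨k, hk, le_rfl⟩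
    exact ⟨j, hj⟩
  · rintro ⟨j, hj⟩
    obtain ⟨k, hk, -⟩ := (R623.LN.W.mem_UC D hD j n hn).2 ⟨j, le_rfl, hj⟩
    exact ⟨k, hk⟩

theorem Level_eq (D : ℕ) (hD : 2 ≤ D) (k : ℕ) :
    {x : ℤ | x ∈ R623.LN.UC D (mD D) (rD D) eD (Fs D) (k + 1) ∧
      x ∉ R623.LN.UC D (mD D) (rD D) eD (Fs D) k ∧ 0 < 1 * x} = (fun n : ℕ => (n : ℤ)) '' Level D (k + 1) := by
  ext x
  constructor
  · rintro ⟨h1, h2, h3⟩
    obtain ⟨n, rfl⟩ : ∃ n : ℕ, x = n := ⟨x.toNat, by omega⟩
    have hn : 1 ≤ n := by omega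
    rw [R623.LN.W.mem_UC D hD _ n hn] at h1 h2
    obtain ⟨j, hj1, hj2⟩ := h1
    have hall : ∀ i < k + 1, D ≤ (F D)^[i] n := by
      intro i hi
      by_contra hcon
      exact h2 ⟨i, by omega, not_le.1 hcon⟩
    refine ⟨n, ⟨hn, ?_, hall⟩, rfl⟩
    rcases Nat.lt_or_ge j (k + 1) with h | h
    · exact absurd hj2 (not_lt.2 (hall j h))
    · have : j = k + 1 := by omega
      rw [← this]; exact hj2
  · rintro ⟨n, ⟨hn, h1, h2⟩, rfl⟩
    refine ⟨?_, ?_, ?_⟩
    · show (n : ℤ) ∈ _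
      rw [R623.LN.W.mem_UC D hD _ n hn]
      exact ⟨k + 1, le_rfl, h1⟩
    · show (n : ℤ) ∉ _
      rw [R623.LN.W.mem_UC D hD _ n hn]
      rintro ⟨j, hj1, hj2⟩
      exact absurd hj2 (not_lt.2 (h2 j (by omega)))
    · show 0 < 1 * (n : ℤ)
      omega

theorem level_finite (D : ℕ) (hD : 2 ≤ D) (k : ℕ) : (Level D k).Finite := by
  have hA := R623.LN.W.adm D hD
  have he : ∀ i < D, eD i ≤ 1 := by
    intro i _
    unfold eD
    split_ifs <;> omega
  obtain ⟨B, hB⟩ := R623.LN.bounded_UC hA he (R623.LN.W.Fs_sub D) (R623.LN.W.Fb_forward D hD) (R := D)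
    (by
      intro x hx
      have h1 : (0 : ℝ) ≤ (x : ℝ) := by exact_mod_cast (by have := hx.1; omega : (0 : ℤ) ≤ x)
      rw [abs_of_nonneg h1]
      exact_mod_cast hx.2) k
  have hfin := R623.LM.fin_of_bdd hB
  have h1 : Set.Finite ((fun n : ℕ => (n : ℤ)) ⁻¹' (R623.LN.UC D (mD D) (rD D) eD (Fs D) k)) :=
    hfin.preimage (Nat.cast_injective.injOn)
  refine h1.subset ?_
  rintro n ⟨hn, hk, -⟩
  show (n : ℤ) ∈ R623.LN.UC D (mD D) (rD D) eD (Fs D) k
  rw [R623.LN.W.mem_UC D hD _ n hn]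
  exact ⟨k, le_rfl, hk⟩

/-- Let `D ≥ 2`. For every `k` only finitely many integers `n ≥ 1` descend below `D` at the step number
`k` and not before. The set of the integers that descend below `D` has a natural density `δ > 0`, and the
sum of `1 / n` over the integers which descend below `D` at the step number `k` and not before tends to
`δ (D log D - (D - 1) log (D + 1)) / (2 D - 1)` for `k → ∞`, a positive number. -/
theorem result (D : ℕ) (hD : 2 ≤ D) :
    (∀ k : ℕ, (Level D k).Finite) ∧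
    0 < D * Real.log D - (D - 1) * Real.log (D + 1) ∧
    ∃ δ : ℝ, 0 < δ ∧ δ ≤ 1 ∧
      Tendsto (fun N : ℕ => (Set.ncard {n : ℕ | 1 ≤ n ∧ n ≤ N ∧ Desc D n} : ℝ) / N) atTop (𝓝 δ) ∧
      Tendsto (fun k : ℕ => ∑' n : Level D k, 1 / ((n : ℕ) : ℝ)) atTop
        (𝓝 (δ * ((D * Real.log D - (D - 1) * Real.log (D + 1)) / (2 * D - 1)))) := by
  have hA := R623.LN.W.adm D hD
  have hDR : (2 : ℝ) ≤ D := by exact_mod_cast hD
  have hpos : 0 < D * Real.log D - (D - 1) * Real.log (D + 1) := by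
    have h1 := H319R3.DN.drift hA
    rw [sum_log D hD] at h1
    linarith
  refine ⟨level_finite D hD, hpos, ?_⟩
  have he : ∀ i < D, eD i ≤ 1 := by
    intro i _
    unfold eD
    split_ifs <;> omega
  have hij : (mD D 0).natAbs ≠ (mD D 1).natAbs := by
    unfold mD
    rw [if_pos rfl, if_neg (by omega)]
    have : ((D : ℤ) + 1).natAbs = D + 1 := by omega
    rw [this]
    simp
    omega
  obtain ⟨l, hl, -⟩ := H319R3.DN.density hA (i := 0) (j := 1) (by omega) (by omega) hij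
    (R623.LN.W.Bas_inv D hD)
  have o1 : (1 : ℤ) = 1 ∨ (1 : ℤ) = -1 := Or.inl rfl
  have hl1 := hl 1 o1
  have hnat := R623.LM.dens_nat hl1
  have hcard : ∀ N : ℕ, Set.ncard {x : ℤ | x ∈ R623.LM.Bas D (mD D) (rD D) (Fs D) ∧ 1 ≤ 1 * x ∧
      1 * x ≤ N} = Set.ncard {n : ℕ | 1 ≤ n ∧ n ≤ N ∧ Desc D n} := by
    intro N
    rw [← Set.ncard_image_of_injective {n : ℕ | 1 ≤ n ∧ n ≤ N ∧ Desc D n}
      (f := fun n : ℕ => (n : ℤ)) Nat.cast_injective]
    congr 1
    ext x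
    constructor
    · rintro ⟨h1, h2, h3⟩
      obtain ⟨n, rfl⟩ : ∃ n : ℕ, x = n := ⟨x.toNat, by omega⟩
      exact ⟨n, ⟨by omega, by omega, (mem_Bas D hD n (by omega)).1 h1⟩, rfl⟩
    · rintro ⟨n, ⟨h1, h2, h3⟩, rfl⟩
      refine ⟨(mem_Bas D hD n h1).2 h3, ?_, ?_⟩
      · show 1 ≤ 1 * (n : ℤ)
        omega
      · show 1 * (n : ℤ) ≤ N
        omega
  simp only [hcard] at hnat
  have h0 : 0 ≤ l 1 := ge_of_tendsto' hnat fun N => by positivity
  have h1 : l 1 ≤ 1 := by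
    refine le_of_tendsto' hnat fun N => ?_
    apply div_le_one_of_le₀ _ (Nat.cast_nonneg _)
    have hsub : {n : ℕ | 1 ≤ n ∧ n ≤ N ∧ Desc D n} ⊆ ((Finset.Icc 1 N : Finset ℕ) : Set ℕ) := by
      rintro n ⟨h1, h2, -⟩
      rw [Finset.coe_Icc]
      exact ⟨h1, h2⟩
    have h2 := Set.ncard_le_ncard hsub (Finset.finite_toSet _)
    rw [Set.ncard_coe_finset, Nat.card_Icc] at h2
    exact_mod_cast (by omega : Set.ncard {n : ℕ | 1 ≤ n ∧ n ≤ N ∧ Desc D n} ≤ N)
  have hne : l 1 ≠ 0 := by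
    intro h2
    rw [h2] at hl1
    have hM : H319R3.PO.Mol D (D + 1) (mD D) (rD D) := by
      refine ⟨rfl, rfl, fun i hi _ => ?_⟩
      unfold mD
      rw [if_neg (by omega)]
      push_cast
      rfl
    have hone : (1 : ℤ) ∈ Fs D := ⟨le_rfl, by omega⟩
    have hper : (H319R3.GC.Tm D (mD D) (rD D))^[2] 1 = 1 := by
      rw [Function.iterate_succ_apply, Function.iterate_one]
      rcases R623.LN.W.Tm_small D hD hone with h3 | h3
      · rw [h3, h3]
      · rw [h3, R623.LN.W.Tm_D D hD]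
    exact H319R3.PO.moeller_cycle hA (by omega) hM (R623.LN.W.Bas_inv D hD) (x := 1) ⟨0, hone⟩
      (p := 2) (by norm_num) hper o1 (by norm_num) hl1
  refine ⟨l 1, lt_of_le_of_ne h0 (Ne.symm hne), h1, hnat, ?_⟩
  have hmain := R623.LN.level_law2 hA he (i₀ := 0) (by omega) rfl (R623.LN.W.det D hD)
    (R623.LN.W.Fs_sub D) (R623.LN.W.Fb_finite D) (R623.LN.W.Fb_forward D hD) (Sg := {1})
    (by
      intro σ hσ
      rw [Finset.mem_singleton] at hσ
      exact Or.inl hσ)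
    (by
      intro i _ φ
      have h2 : 0 < mD D i := by
        unfold mD
        split_ifs <;> omega
      rw [Finset.sum_singleton, Finset.sum_singleton, Int.sign_eq_one_of_pos h2, mul_one])
    (l := l)
    (by
      intro σ hσ
      rw [Finset.mem_singleton] at hσ
      rw [hσ]
      exact R623.LM.Fw_of_dens o1 hl1)
  simp only [Finset.sum_singleton] at hmain
  rw [sum_log D hD, sum_e D hD] at hmain
  have hconst : -(-(D * Real.log D - (D - 1) * Real.log (D + 1))) / D * l 1 / (1 + ((D : ℝ) - 1) / D) =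
      l 1 * ((D * Real.log D - (D - 1) * Real.log (D + 1)) / (2 * D - 1)) := by
    have h2 : (D : ℝ) ≠ 0 := by positivity
    have h3 : (2 * (D : ℝ) - 1) ≠ 0 := by linarith
    have h4 : 1 + ((D : ℝ) - 1) / D = (2 * D - 1) / D := by
      field_simp
      ring
    rw [h4]
    field_simp
  rw [hconst] at hmain
  refine (tendsto_add_atTop_iff_nat (f := fun k : ℕ => ∑' n : Level D k, 1 / ((n : ℕ) : ℝ)) 1).1 ?_
  refine hmain.congr fun k => ?_
  rw [Level_eq D hD k, tsum_image (fun x : ℤ => 1 / |(x : ℝ)|) (Nat.cast_injective.injOn)]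
  refine tsum_congr fun n => ?_
  rw [Int.cast_natCast, Nat.abs_cast]

end Pool.Agent.Results.MP_5317dd_nt.ReciprocalMassOfLevels
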