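import Pool.Agent.R344.FD.C
import Pool.Agent.Results.MP_5317dd_nt.ReciprocalMassOfLevels

/-!
Wiggin's maps `F_D`: the integers which descend below `D` after exactly `k` steps are, for `k → ∞` and with
the weights `1 / n`, equidistributed modulo every divisor of a power of `D (D + 1)`.
-/

set_option autoImplicit false

namespace Pool.Agent.Results.MP_5317dd_nt.ResiduesOnLevels

open Filter Topology

/-- Wiggin's map `F_D`. -/
def F (D x : ℕ) : ℕ :=
  if x % D = 0 then x / D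
  else if x % D = D - 1 then (D + 1) * x + 1
  else (D + 1) * x - x % D

/-- The integers `n ≥ 1` which descend below `D` at the step number `k` and not before. -/
def Level (D k : ℕ) : Set ℕ := {n : ℕ | 1 ≤ n ∧ (F D)^[k] n < D ∧ ∀ j < k, D ≤ (F D)^[j] n}

/-- The sum of `1 / n` over the integers `n` in `A`. -/
noncomputable def mass (A : Set ℕ) : ℝ := ∑' n : A, 1 / ((n : ℕ) : ℝ)

open Pool.Agent.R344.FD
open Pool.Agent.R623.LN.W (mD rD eD Fs Fb)

theorem setup (D : ℕ) (hD : 2 ≤ D) : Setup D (mD D) (rD D) eD (Fs D) (Fb D) where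
  adm := Pool.Agent.R623.LN.W.adm D hD
  he := by
    intro i _
    unfold eD
    split_ifs <;> omega
  hdet := Pool.Agent.R623.LN.W.det D hD
  hFF := Pool.Agent.R623.LN.W.Fs_sub D
  hF := Pool.Agent.R623.LN.W.Fb_finite D
  hT := Pool.Agent.R623.LN.W.Fb_forward D hD

theorem Lv_eq (D : ℕ) (hD : 2 ≤ D) (k : ℕ) :
    Lv D (mD D) (rD D) eD (Fs D) k = (fun n : ℕ => (n : ℤ)) '' Level D (k + 1) := by
  have h := Pool.Agent.Results.MP_5317dd_nt.ReciprocalMassOfLevels.Level_eq D hD k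
  unfold Lv
  simp only [one_mul] at h
  exact h

theorem ms_image (A : Set ℕ) : ms ((fun n : ℕ => (n : ℤ)) '' A) = mass A := by
  unfold ms mass
  rw [tsum_image (fun x : ℤ => 1 / |(x : ℝ)|) (Nat.cast_injective.injOn)]
  refine tsum_congr fun n => ?_
  rw [Int.cast_natCast, Nat.abs_cast]

theorem ms_class (D : ℕ) (hD : 2 ≤ D) (k q c : ℕ) :
    ms (Cl (Lv D (mD D) (rD D) eD (Fs D) k) q c) = mass {n | n ∈ Level D (k + 1) ∧ n ≡ c [MOD q]} := by
  rw [← ms_image, Lv_eq D hD]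
  congr 1
  ext x
  constructor
  · rintro ⟨⟨n, hn, rfl⟩, hq⟩
    refine ⟨n, ⟨hn, ?_⟩, rfl⟩
    have : (c : ℤ) ≡ n [ZMOD q] := Int.modEq_iff_dvd.2 hq
    exact (Int.natCast_modEq_iff.1 this).symm
  · rintro ⟨n, ⟨hn, hq⟩, rfl⟩
    refine ⟨⟨n, hn, rfl⟩, ?_⟩
    exact Int.modEq_iff_dvd.1 (Int.natCast_modEq_iff.2 hq.symm)

/-- Let `D ≥ 2` and let `q` divide a power of `D (D + 1)`. All levels are finite, and for `k → ∞` each residue
class modulo `q` has the share `1 / q` of the sum of the reciprocals of the integers which descend below `D` at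
the step number `k` and not before. -/
theorem result (D : ℕ) (hD : 2 ≤ D) (j q : ℕ) (hq : q ∣ (D * (D + 1)) ^ j) (c : ℕ) :
    (∀ k : ℕ, (Level D k).Finite) ∧
    Tendsto (fun k : ℕ => mass {n | n ∈ Level D k ∧ n ≡ c [MOD q]} / mass (Level D k)) atTop
      (𝓝 (1 / (q : ℝ))) := by
  obtain ⟨hfin, hpos, δ, hδ0, _, _, hδ⟩ := Pool.Agent.Results.MP_5317dd_nt.ReciprocalMassOfLevels.result D hD
  refine ⟨hfin, ?_⟩
  set μ : ℝ := δ * ((D * Real.log D - (D - 1) * Real.log (D + 1)) / (2 * D - 1)) with hμd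
  have hDR : (2 : ℝ) ≤ D := by exact_mod_cast hD
  have hμ0 : 0 < μ := mul_pos hδ0 (div_pos hpos (by linarith))
  have hμ : Tendsto (fun k : ℕ => mass (Level D k)) atTop (𝓝 μ) := hδ
  have hm : ∀ i < D, 0 < mD D i := by
    intro i _
    unfold mD
    split_ifs <;> omega
  have hμL : Tendsto (fun k : ℕ => ms (Lv D (mD D) (rD D) eD (Fs D) k)) atTop (𝓝 μ) := by
    have h1 := (tendsto_add_atTop_iff_nat (f := fun k : ℕ => mass (Level D k)) 1).2 hμ
    refine h1.congr fun k => ?_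
    rw [Lv_eq D hD, ms_image]
  have hP : (D + 1) ^ j ∣ Pool.Agent.H319R3.GC.PP D (mD D) ^ j := by
    apply pow_dvd_pow_of_dvd
    obtain ⟨e, rfl⟩ : ∃ e, D = e + 1 := ⟨D - 1, by omega⟩
    rw [Pool.Agent.R623.LN.W.prod_eq]
    exact dvd_pow_self _ (by omega)
  have hq' : q ∣ D ^ j * (D + 1) ^ j := by rwa [← mul_pow]
  have h2 := residues_dvd (setup D hD) hm hμL (a := j) hP hq' (c : ℤ)
  have h3 := h2.div hμL hμ0.ne'
  have h4 : μ / q / μ = 1 / (q : ℝ) := by
    rw [div_right_comm, div_self hμ0.ne']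
  rw [h4] at h3
  rw [← tendsto_add_atTop_iff_nat 1]
  refine h3.congr fun k => ?_
  rw [Pi.div_apply, ms_class D hD, Lv_eq D hD, ms_image]

end Pool.Agent.Results.MP_5317dd_nt.ResiduesOnLevels
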